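import Pool.Agent.Duplex38.Main

/-!
# A duplex lifts along an epimorphism of latin squares with good blocks
-/

namespace Pool.Agent.Results.MP_043404_co.DuplexLifting

open Pool.Agent.Duplex38

/-- Let `L` be a finite latin square, `h` a homotopism of `L` onto a latin square `L'`, and `D` a duplex of `L'`. If the
two blocks of `L` over any two cells of `D` with the same symbol form a good pair, then `L` has a duplex. -/
theorem result {R C S R' C' S' : Type} [Finite R] [Finite C] [Finite S] [Finite R'] [Finite C']
    (L : R → C → S) (L' : R' → C' → S') (hL : IsLatin L) (hL' : IsLatin L') (h : Epi L L')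
    (D : Set (R' × C')) (hD : IsDuplex L' D) (hg : GoodOn h D) :
    ∃ D₁ : Set (R × C), IsDuplex L D₁ :=
  lift_of_good hL hL' h hD hg

end Pool.Agent.Results.MP_043404_co.DuplexLifting
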