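import Pool.Agent.NC79.Stable

/-!
# Rodney's duplex conjecture near groups with a large soluble normal subgroup and near their products

`Stable t T` says that every table which, for some naming of its rows, columns and symbols by those of `T`, agrees with
`T` in all but at most `t` cells of each row, of each column and of each set of cells where `T` has a given symbol, has
a duplex, even one inside the set of cells where it agrees with `T`.

The theorem: for every `t` there is an `N` such that the direct product `Q × G` of a table `Q` of order `q` and a finite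
group `G` is stable if `G` has a normal subgroup `H`, soluble and of order at least `N`, such that

* `Q × G/H` has a transversal or a duplex, or
* `Q` is any latin square and `G/H` has a normal subgroup of order `q` whose factor group is soluble, or has a
  transversal, or has a duplex.

With `q = 1` and `H = G` these are the Cayley tables of all large soluble groups. For abelian groups `H` there are
explicit bounds.
-/

namespace Pool.Agent.Results.MP_043404_co.NearSoluble

open Pool.Agent.Duplex38 Pool.Agent.NC79

theorem result (t : ℕ) : ∃ N : ℕ, ∀ (G : Type) (_ : Group G) (_ : Finite G) (H : Subgroup G) (_ : H.Normal) (q : ℕ)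
    (Q : Fin q → Fin q → Fin q),
    (((HasTransversal (times Q (G ⧸ H)) ∨ ∃ D, IsDuplex (times Q (G ⧸ H)) D) ∨
      (IsLatin Q ∧ ∃ (C : Subgroup (G ⧸ H)) (_ : C.Normal), Nat.card C = q ∧
        (Group.IsSolvable ((G ⧸ H) ⧸ C) ∨ HasTransversal (cayley ((G ⧸ H) ⧸ C)) ∨
          ∃ D, IsDuplex (cayley ((G ⧸ H) ⧸ C)) D))) ∧
      ((Group.IsSolvable H ∧ N ≤ Nat.card H) ∨
        ((∀ a b : H, a * b = b * a) ∧ 2000000000000000000000 * (t + 1) ^ 5 ≤ Nat.card H))) ∨
      ((HasTransversal (times Q (G ⧸ H)) ∨
        (IsLatin Q ∧ ∃ (C : Subgroup (G ⧸ H)) (_ : C.Normal), Nat.card C = q ∧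
          HasTransversal (cayley ((G ⧸ H) ⧸ C)))) ∧ LargeAb t H) →
    Stable t (times Q G) :=
  ⟨secBound (thr t) + 1, fun _ _ _ H _ _ _ h => stable_of_robust (robust_final H h)⟩

end Pool.Agent.Results.MP_043404_co.NearSoluble
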