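import Pool.Agent.SemiReg76.Fin

/-!
# Latin squares with a semiregular group of autotopisms with at most three orbits have a duplex
-/

set_option autoImplicit false

namespace Pool.Agent.Results.MP_043404_co.SemiregularDuplex

open Pool.Agent.Duplex38 Pool.Agent.SemiReg76

/-- Let a group `G` act on the rows, the columns and the symbols of a latin square `L` of order at least two by
autotopisms, such that only the identity of `G` fixes a row, a column or a symbol, and let `G` have at most three orbits
on the rows. Then `L` has a duplex: a set of cells meeting every row, every column and every symbol exactly twice. -/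
theorem result {G R C S : Type} [Group G] [MulAction G R] [MulAction G C] [MulAction G S]
    [Finite R] [Finite C] [Finite S] [Nonempty C] (L : R → C → S) (latin : IsLatin L)
    (autotopism : ∀ (g : G) (r : R) (c : C), L (g • r) (g • c) = g • L r c)
    (free_rows : ∀ (g : G) (r : R), g • r = r → g = 1)
    (free_columns : ∀ (g : G) (c : C), g • c = c → g = 1)
    (free_symbols : ∀ (g : G) (s : S), g • s = s → g = 1)
    (order : 2 ≤ Nat.card R) (orbits : Nat.card (MulAction.orbitRel.Quotient G R) ≤ 3) :
    ∃ D : Set (R × C), IsDuplex L D := by
  obtain ⟨hG, ⟨A⟩⟩ := setup L latin autotopism free_rows free_columns free_symbols order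
  have hRne : Nonempty R := by
    by_contra h
    rw [not_nonempty_iff] at h
    rw [Nat.card_of_isEmpty] at order
    omega
  obtain ⟨r₀⟩ := hRne
  obtain ⟨c₀⟩ := (inferInstance : Nonempty C)
  generalize Nat.card (MulAction.orbitRel.Quotient G R) = d at A orbits
  have h0 : 0 < d := Fin.pos (A.ρ r₀)
  interval_cases d
  · exact one A order
  · obtain ⟨𝒟, -, h2, h3⟩ := A.partition hG
    have : ((r₀, c₀) : R × C) ∈ ⋃₀ 𝒟 := by rw [h2]; trivial
    obtain ⟨D, hD, -⟩ := this
    exact ⟨D, h3 D hD⟩
  · obtain ⟨T, D, -, -, h⟩ := three A hG
    exact ⟨D, h⟩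

end Pool.Agent.Results.MP_043404_co.SemiregularDuplex
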