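import Pool.Agent.Semi79.Duplex

/-!
# Every idempotent semisymmetric latin square of order at least two has a duplex
-/

namespace Pool.Agent.Results.MP_043404_co.SemisymmetricDuplex

open Pool.Agent.Duplex38

/-- Let `L` be the table of a binary operation on a finite set with at least two elements which is idempotent
(`L a a = a`) and semisymmetric (`L b (L a b) = a`); such tables are latin squares. Then every latin square `T` isotopic
to `L` has a duplex: a set of cells meeting every row, every column and every symbol exactly twice. -/
theorem result {R C S A : Type} [Finite A] (T : R → C → S) (L : A → A → A)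
    (idempotent : ∀ a, L a a = a) (semisymmetric : ∀ a b, L b (L a b) = a)
    (row : R ≃ A) (col : C ≃ A) (sym : S ≃ A) (isotopic : ∀ r c, sym (T r c) = L (row r) (col c))
    (order : 2 ≤ Nat.card A) : IsLatin T ∧ ∃ D : Set (R × C), IsDuplex T D := by
  classical
  have := Fintype.ofFinite A
  have h : Pool.Agent.Semi79.ISQ L := ⟨idempotent, semisymmetric⟩
  rw [Nat.card_eq_fintype_card] at order
  refine ⟨⟨fun r => ?_, fun c => ?_⟩, ?_⟩
  · have h1 : Function.Bijective (L (row r)) := Finite.injective_iff_bijective.1 fun a b e => h.inj_left e
    have h2 : (fun c => T r c) = sym.symm ∘ L (row r) ∘ col := by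
      funext c
      simp [← isotopic]
    rw [h2]
    exact sym.symm.bijective.comp (h1.comp col.bijective)
  · have h1 : Function.Bijective fun a => L a (col c) :=
      Finite.injective_iff_bijective.1 fun a b e => h.inj_right e
    have h2 : (fun r => T r c) = sym.symm ∘ (fun a => L a (col c)) ∘ row := by
      funext r
      simp [← isotopic]
    rw [h2]
    exact sym.symm.bijective.comp (h1.comp row.bijective)
  · obtain ⟨D, hD⟩ := Pool.Agent.Semi79.exists_duplex h order
    exact Pool.Agent.Semi79.duplex_of_isotopic row col sym isotopic hD

end Pool.Agent.Results.MP_043404_co.SemisymmetricDuplex
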